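import Pool.Agent.MP_436a94_nt.E.Pos
import Pool.Agent.MP_436a94_nt.A.Defs
import Pool.Agent.MP_43e117_nt.PG.Br
import Pool.Agent.MP_43e117_nt.PG.Tot
import Pool.Agent.MP_43e117_nt.PG.SC
import Pool.Agent.MP_43e117_nt.PG.B1
import Pool.Agent.MP_43e117_nt.PG.B2
import Pool.Agent.MP_43e117_nt.PG.V0
import Pool.Agent.MP_43e117_nt.PG.V1
import Pool.Agent.MP_43e117_nt.PG.SW
import Pool.Agent.MP_43e117_nt.PG.PT
import Pool.Agent.MP_43e117_nt.PG.BV

/-!
Many rough primes in a long interval.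
-/

set_option autoImplicit false

open Finset Filter
open scoped Classical

namespace Pool.Agent.MP_436a94_nt.E

open Pool.Agent.MP_43e117_nt

theorem a_PT : PG.StPT := PG.s_PT PG.s_Tau PG.s_Pm (PG.s_B2 (PG.s_B1 PG.s_LS PG.s_SC))
  (PG.s_V1 PG.s_V0) PG.s_TL (PG.s_SW PG.s_Psi PG.s_TL)

lemma theta_ge : ∀ᶠ N : ℕ in atTop, (N : ℝ) / 2 ≤ ∑ n ∈ Ioc (2 * N) (3 * N), PG.th n := by
  obtain ⟨N₀, h⟩ := eventually_atTop.1 ((PG.s_PNT 1).and (ev_log 10))
  filter_upwards [eventually_ge_atTop N₀] with N hN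
  obtain ⟨a1, a2⟩ := h (2 * N) (by omega)
  obtain ⟨b1, b2⟩ := h (3 * N) (by omega)
  have i1 : ∀ x : ℕ, Icc 1 x = Ioc 0 x := fun x => rfl
  have e := sum_Ioc_consecutive PG.th (Nat.zero_le (2 * N)) (show 2 * N ≤ 3 * N by omega)
  rw [i1, pow_one, abs_le] at a1 b1
  have a3 : ((2 * N : ℕ) : ℝ) / Real.log (2 * N : ℕ) ≤ (2 * N : ℕ) / 10 := by gcongr
  have b3 : ((3 * N : ℕ) : ℝ) / Real.log (3 * N : ℕ) ≤ (3 * N : ℕ) / 10 := by gcongr
  have a4 := a1.2.trans a3
  have b4 := (neg_le_neg b3).trans b1.1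
  push_cast at a4 b4
  linarith

theorem s_LR (hS : A.StSv) : StLR := by
  obtain ⟨al, c, hal, hc, hS⟩ := hS (1 / 100) (by norm_num) le_rfl
  obtain ⟨N₀, hP⟩ := eventually_atTop.1 (a_PT (1 / 4) 7 (by norm_num) le_rfl)
  refine ⟨al, c / 8, hal, by positivity, ?_⟩
  filter_upwards [hS, theta_ge, ev_log 1, ev_log (48 / c), eventually_ge_atTop N₀,
    eventually_ge_atTop 3] with N h1 h2 hL hLc hN hN3
  set L := Real.log N with hLd
  have N1 : (1 : ℝ) ≤ N := by exact_mod_cast (show 1 ≤ N by omega)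
  have L0 : 0 < L := by linarith
  have hsub : Ioc (2 * N) (3 * N) ⊆ Ioc N (8 * N) := Ioc_subset_Ioc (by omega) (by omega)
  have h3 := h1 (fun n => if n ∈ Ioc (2 * N) (3 * N) then 1 else 0) fun n => by
    split_ifs <;> norm_num
  simp only [mul_ite, mul_one, mul_zero] at h3
  rw [← sum_filter, ← sum_filter, filter_mem_eq_inter, inter_eq_right.2 hsub] at h3
  have e1 : ∀ (r : ℕ) (χ : DirichletCharacter ℂ r),
      PG.CS (fun n => if n ∈ Ioc (2 * N) (3 * N) then PG.th n else 0) (Ioc N (8 * N)) 1 χ =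
        PG.CS PG.th (Ioc (2 * N) (3 * N)) 1 χ := fun r χ => by
    unfold PG.CS
    symm
    refine sum_subset_zero_on_sdiff (filter_subset_filter _ hsub) (fun n hn => ?_) fun n hn => ?_
    · have : n ∉ Ioc (2 * N) (3 * N) := fun e => (mem_sdiff.1 hn).2
        (mem_filter.2 ⟨e, Nat.coprime_one_right n⟩)
      simp only [if_neg this, Complex.ofReal_zero, zero_mul]
    · simp only [if_pos (mem_filter.1 hn).1]
  simp only [e1] at h3
  set Q := ⌊((2 * N : ℕ) : ℝ) ^ (1 / 2 - 1 / 4 : ℝ)⌋₊ with hQ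
  have l2 : L ≤ Real.log (2 * N : ℕ) := Real.log_le_log (by linarith) (by push_cast; linarith)
  have a1 : PG.PS PG.th (Ioc (2 * N) (3 * N)) 1 1 Q ≤ 4 * N / L ^ 7 := by
    have b1 := hP (2 * N) (by omega) (3 * N) 1 (by omega) (by omega) (mem_Icc.2 (by omega))
    have b2 := hP (2 * N) (by omega) (2 * N) 1 le_rfl (by omega) (mem_Icc.2 (by omega))
    have b3 : ((2 * N : ℕ) : ℝ) / Real.log (2 * N : ℕ) ^ 7 ≤ 2 * N / L ^ 7 := by
      have : ((2 * N : ℕ) : ℝ) = 2 * N := by push_cast; ring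
      nth_rewrite 1 [this]
      gcongr
    rw [← hQ] at b1 b2
    have b4 := PG.BVA.ps_sub PG.th (show 2 * N ≤ 3 * N by omega) 1 1 Q
    have b5 : 4 * (N : ℝ) / L ^ 7 = 2 * (2 * N / L ^ 7) := by ring
    linarith
  have a2 : ∑ r ∈ Ioc 1 ⌊(N : ℝ) ^ (1 / 100 : ℝ)⌋₊, 1 / (r.totient : ℝ) *
      ∑ χ ∈ PG.pm r, ‖PG.CS PG.th (Ioc (2 * N) (3 * N)) 1 χ‖ ≤
      3 * L * PG.PS PG.th (Ioc (2 * N) (3 * N)) 1 1 Q := by
    unfold PG.PS
    rw [mul_sum]
    have b1 : ⌊(N : ℝ) ^ (1 / 100 : ℝ)⌋₊ ≤ Q := Nat.floor_le_floor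
      ((Real.rpow_le_rpow_of_exponent_le N1 (by norm_num)).trans
        (Real.rpow_le_rpow (by linarith) (by push_cast; linarith) (by norm_num)))
    refine le_trans (sum_le_sum fun r hr => ?_) (sum_le_sum_of_subset_of_nonneg
      (Ioc_subset_Ioc_right b1) fun r _ _ => by positivity)
    obtain ⟨r1, r2⟩ := mem_Ioc.1 hr
    have r3 : (r : ℝ) ≤ N := (Nat.cast_le.2 r2).trans ((Nat.floor_le (by positivity)).trans
      ((Real.rpow_le_rpow_of_exponent_le N1 (by norm_num)).trans_eq (Real.rpow_one _)))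
    have r0 : (0 : ℝ) < r := by exact_mod_cast (show 0 < r by omega)
    have r4 : Real.log r ≤ L := Real.log_le_log r0 r3
    have r5 : (0 : ℝ) < r.totient := by exact_mod_cast Nat.totient_pos.2 (by omega)
    have r6 := PG.s_Tot r r1.le
    rw [← mul_assoc]
    refine mul_le_mul_of_nonneg_right ?_ (by positivity)
    rw [mul_one_div, div_le_div_iff₀ r5 r0]
    nlinarith
  have a3 : ∑ p ∈ ((Ioc N (8 * N)).filter (A.rough N al)).filter
      (fun p => p ∈ Ioc (2 * N) (3 * N)), Real.log p ≤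
      ((Ioc (2 * N) (3 * N)).filter (Rg ((N : ℝ) ^ al))).card * (2 * L) := by
    refine (sum_le_card_nsmul _ _ (2 * L) fun p hp => ?_).trans ?_
    · obtain ⟨p1, p2⟩ := mem_Ioc.1 (mem_filter.1 hp).2
      have b1 : (p : ℝ) ≤ (N : ℝ) ^ 2 := by exact_mod_cast (show p ≤ N ^ 2 by nlinarith)
      have := Real.log_le_log (by exact_mod_cast (show 0 < p by omega)) b1
      rw [Real.log_pow] at this
      exact_mod_cast this
    · rw [nsmul_eq_mul]
      refine mul_le_mul_of_nonneg_right (Nat.cast_le.2 (card_le_card fun p hp => ?_))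
        (by positivity)
      exact mem_filter.2 ⟨(mem_filter.1 hp).2, (mem_filter.1 (mem_filter.1 hp).1).2⟩
  have a4 : L ^ 4 * (3 * L * (4 * N / L ^ 7)) ≤ c / L * (N / 4) := by
    rw [div_le_iff₀ hc] at hLc
    calc _ = 48 / L ^ 2 * (N / 4) := by field_simp; ring
      _ ≤ L * c / L ^ 2 * (N / 4) := by gcongr
      _ = _ := by field_simp
  have a5 := mul_le_mul_of_nonneg_left (a2.trans (mul_le_mul_of_nonneg_left a1 (by positivity)))
    (show 0 ≤ L ^ 4 by positivity)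
  have a6 := mul_le_mul_of_nonneg_left h2 (show 0 ≤ c / L by positivity)
  refine le_of_mul_le_mul_right ?_ (show 0 < 2 * L by positivity)
  have a7 : c / 8 * N / L ^ 2 * (2 * L) = c / L * (N / 4) := by field_simp; ring
  have a8 : c / L * (N / 2) = 2 * (c / L * (N / 4)) := by ring
  linarith

end Pool.Agent.MP_436a94_nt.E
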